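import Pool.Agent.H24.CL.Targets

/-!
# VC: the last class of a chain is seen by the sum over the classes modulo `q^m` (helper40)
-/

set_option autoImplicit false

open Finset MeasureTheory
open Pool.Agent.H24.CL

namespace Pool.Agent.H40.CLV

/-- one digit is split off -/
theorem fc_split (hEX : T_EX) (hPF : T_PF) {k : ℕ} (q d b B L : ℕ) (w : X k) :
    ‖fc (q ^ (d + 1)) (b + q * B) L w‖ = ‖fc (q ^ d) B L (phi q b w)‖ := by
  have h : fc (q ^ (d + 1)) (b + q * B) L w = e (P w b) * fc (q ^ d) B L (phi q b w) := by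
    unfold fc
    rw [Finset.mul_sum]
    refine Finset.sum_congr rfl fun z _ => ?_
    have h1 : b + q * B + q ^ (d + 1) * z = b + q * (B + q ^ d * z) := by ring
    rw [h1, hPF.1 k q b (B + q ^ d * z) w, hEX.2.1]
  rw [h, norm_mul, hEX.1, one_mul]

/-- the sum over the classes, one digit split off -/
theorem sum_split (hEX : T_EX) (hPF : T_PF) {k : ℕ} (q d L : ℕ) (w : X k) :
    ∑ b ∈ range q, ∑ B ∈ range (q ^ d), ‖fc (q ^ d) B L (phi q b w)‖ ^ 2 ≤
      ∑ B ∈ range (q ^ (d + 1)), ‖fc (q ^ (d + 1)) B L w‖ ^ 2 := by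
  rw [← Finset.sum_product' (range q) (range (q ^ d))
    (fun b B => ‖fc (q ^ d) B L (phi q b w)‖ ^ 2)]
  have h1 : ∑ x ∈ range q ×ˢ range (q ^ d), ‖fc (q ^ d) x.2 L (phi q x.1 w)‖ ^ 2 =
      ∑ B ∈ (range q ×ˢ range (q ^ d)).image (fun x : ℕ × ℕ => x.1 + q * x.2),
        ‖fc (q ^ (d + 1)) B L w‖ ^ 2 := by
    rw [Finset.sum_image]
    · refine Finset.sum_congr rfl fun x _ => ?_
      rw [fc_split hEX hPF]
    · intro x hx y hy hxy
      simp only [Finset.coe_product, Finset.coe_range, Set.mem_prod, Set.mem_Iio] at hx hy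
      have e1 : x.1 + q * x.2 = y.1 + q * y.2 := hxy
      have hq : 0 < q := by omega
      have e2 : x.1 = y.1 := by
        have h := congrArg (fun t => t % q) e1
        simpa [Nat.add_mul_mod_self_left, Nat.mod_eq_of_lt hx.1, Nat.mod_eq_of_lt hy.1] using h
      have e3 : q * x.2 = q * y.2 := by omega
      exact Prod.ext e2 (Nat.eq_of_mul_eq_mul_left hq e3)
  rw [h1]
  refine Finset.sum_le_sum_of_subset_of_nonneg ?_ fun _ _ _ => by positivity
  intro B hB
  obtain ⟨x, hx, rfl⟩ := Finset.mem_image.mp hB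
  rw [Finset.mem_product, Finset.mem_range, Finset.mem_range] at hx
  rw [Finset.mem_range, pow_succ]
  have h3 : q * (x.2 + 1) ≤ q * q ^ d := Nat.mul_le_mul_left _ hx.2
  nlinarith [hx.1, h3]

/-- VC -/
theorem pf_VC (hEX : T_EX) (hPF : T_PF) (_hCB : T_CB) : T_VC := by
  intro k q m L T ρ t₀ W A n _ _ hL _ _ ht₀ hch w hw
  have hLr : (0 : ℝ) < L := by exact_mod_cast hL
  have hA : 0 ≤ A m := le_trans (by positivity) (hch.A_lo m le_rfl)
  have key : ∀ d j : ℕ, j + d = m → ∀ w ∈ W j,
      (∏ l ∈ Ico j m, n l) * (A m * L) ^ 2 ≤ ∑ B ∈ range (q ^ d), ‖fc (q ^ d) B L w‖ ^ 2 := by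
    intro d
    induction d with
    | zero =>
      intro j hj w hw
      have hjm : j = m := by omega
      subst hjm
      have h1 := hch.lo j le_rfl w hw
      rw [Nat.sub_self, pow_zero, one_mul] at h1
      have h2 : ‖fc (q ^ 0) 0 L w‖ = ‖f L w‖ := by
        unfold fc f
        simp
      have h3 : A j * L ≤ ‖f L w‖ := by
        unfold u at h1
        rw [norm_div, Complex.norm_natCast, le_div_iff₀ hLr] at h1
        exact h1
      have h4 : (A j * (L : ℝ)) ^ 2 ≤ ‖f L w‖ ^ 2 :=
        pow_le_pow_left₀ (mul_nonneg hA hLr.le) h3 2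
      rw [Finset.Ico_self, Finset.prod_empty, one_mul]
      have h5 : range (q ^ 0) = {0} := by simp
      rw [h5, Finset.sum_singleton, h2]
      exact h4
    | succ d ih =>
      intro j hj w hw
      have hjm : j < m := by omega
      refine le_trans ?_ (sum_split hEX hPF q d L w)
      classical
      have hsub : pos q (W (j + 1)) w ⊆ range q := by
        unfold pos
        exact Finset.filter_subset _ _
      have h1 : ∑ b ∈ pos q (W (j + 1)) w,
          ∑ B ∈ range (q ^ d), ‖fc (q ^ d) B L (phi q b w)‖ ^ 2 ≤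
          ∑ b ∈ range q, ∑ B ∈ range (q ^ d), ‖fc (q ^ d) B L (phi q b w)‖ ^ 2 :=
        Finset.sum_le_sum_of_subset_of_nonneg hsub fun _ _ _ =>
          Finset.sum_nonneg fun _ _ => by positivity
      refine le_trans ?_ h1
      have h2 : ∀ b ∈ pos q (W (j + 1)) w, (∏ l ∈ Ico (j + 1) m, n l) * (A m * L) ^ 2 ≤
          ∑ B ∈ range (q ^ d), ‖fc (q ^ d) B L (phi q b w)‖ ^ 2 := by
        intro b hb
        refine ih (j + 1) (by omega) _ ?_
        unfold pos at hb
        exact (Finset.mem_filter.mp hb).2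
      have h3 := Finset.card_nsmul_le_sum _ _ _ h2
      refine le_trans ?_ h3
      rw [nsmul_eq_mul, Finset.prod_eq_prod_Ico_succ_bot hjm]
      have h4 : 0 ≤ ∏ l ∈ Ico (j + 1) m, n l := Finset.prod_nonneg fun l hl => by
        have := hch.one_le l (Finset.mem_Ico.mp hl).2
        linarith
      have h5 : 0 ≤ (∏ l ∈ Ico (j + 1) m, n l) * (A m * L) ^ 2 := by positivity
      have h6 := mul_le_mul_of_nonneg_right (hch.card_lo j hjm w hw) h5
      linarith [h6]
  have := key m 0 (by omega) w hw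
  rwa [← Finset.range_eq_Ico] at this

end Pool.Agent.H40.CLV
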